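import Mathlib
import Pool.Agent.H30.ND

set_option autoImplicit false

namespace Pool.Agent.Results.MP_414e75_gt.T1

open Pool.Agent.H30

theorem result : ∃ (X : Type) (_ : TopologicalSpace X), T1Space X ∧ HereditarilyLindelofSpace X ∧
    ∃ N : X → Set X, (∀ x, IsOpen (N x) ∧ x ∈ N x) ∧
      ∀ D : Set X, IsClosed D → DiscreteTopology D → (⋃ d ∈ D, N d) ≠ Set.univ :=
  ⟨ND.W, inferInstance, inferInstance, inferInstance, fun x => {y | x ∉ ND.A y},
    fun x => ⟨ND.op (Or.inl ⟨x, rfl⟩), ND.A_not x⟩, fun _ _ h => ND.main h⟩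

end Pool.Agent.Results.MP_414e75_gt.T1
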